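import Pool.Agent.Q99.SML2.Knotoid

/-!
# Relations between the normalised brackets of several families of knotoid diagrams

Diagrams (starting library `Pool.Agent.H891R2.Jones.Diagram`): `Diagram P` (oriented diagrams with marked
points `P`, planar or not; `Diagram.loops`, the number of components of a state, counts circles and
intervals), `Diagram.fPoly` (the normalised bracket `(-A^{-3})^{w(D)} ⟨D⟩`), `Outer m` (the part of an
oriented diagram outside a box through which `m` strands run, with arbitrary directions), `Outer.close`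
(fills the rest of the box with vertical strands).  `IsKnotoid D` (starting library
`Pool.Agent.H832R3.TW.E`): the pieces of `D` form one oriented interval, running from a marked point `tail`
to a different marked point `head`, and (possibly) oriented closed curves.

`Pool.Agent.Q99.SML.Defs`: `Word` (words in the letters `σ_j^{±1}`), `wperm m w` (the permutation of `w`;
`w` is pure if it is `1`), `family O w u n` (the product
`w_0^{n_0} u_0 w_1^{n_1} u_1 ⋯ w_{k-1}^{n_{k-1}} u_{k-1}` is drawn in the box of `O`).
-/

set_option autoImplicit false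

namespace Pool.Agent.Results.MP_79b4ff_gt.BraidPowerRelations

open Finset LaurentPolynomial Pool.Agent.H891R2.Jones Pool.Agent.H832R3.TW Q99.SML Q99.SML2

/-- Let `O_i`, `i < r`, be outsides of boxes with `m_i` strands, let `w_{i,j}`, `u_{i,j}`, `j < k`, be
braid words, let `P ≥ 1` be such that all `w_{i,j}^P` are pure (`P = 1` if the `w_{i,j}` are pure), let
`s ∈ ℤ^k`, and for `q ∈ ℤ^k` let `K_i(q)` be the diagram obtained by drawing the product
`w_{i,0}^{n_0} u_{i,0} ⋯ w_{i,k-1}^{n_{k-1}} u_{i,k-1}`, `n = s + P q`, in the box of `O_i`.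

* If `O_i` is the outside of a knotoid diagram and the product of the words for `q = 0` preserves the
  directions of the strands, then all `K_i(q)` are diagrams of knotoids.
* Let `c_i` and `g` be Laurent polynomials. Either `∑ c_i f(K_i(q)) = g` for all `q ∈ ℤ^k`, or for all
  finite sets `A_0, …, A_{k-1}` of integers this holds for at most
  `(∑ C(m_i, ⌊m_i / 2⌋)) ∑_j ∏_{l ≠ j} |A_l|` of the `q ∈ ∏ A_j`.

For `k = 1`, `r = 1`: the normalised bracket of the knotoids `K(q)` is `1` for all `q`, or for at most
`C(m, ⌊m/2⌋)` integers `q`; for `r = 2`: the normalised brackets of the knotoids `K(q)` and of any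
second such family, for instance of the knots obtained from the `K(q)` by joining head and tail by an
arc below (or above) the diagram, agree for all `q`, or for at most `C(m, ⌊m/2⌋) + C(m', ⌊m'/2⌋)`
integers `q`. -/
theorem result {r k : ℕ} {m : Fin r → ℕ} (hm : ∀ i, 0 < m i) (O : ∀ i, Outer (m i))
    (w u : Fin r → Fin k → Word) (P : ℕ) (hP : ∀ i j, wperm (m i) (w i j) ^ P = 1)
    (s : Fin k → ℤ) (c : Fin r → ℤ[T;T⁻¹]) (g : ℤ[T;T⁻¹]) :
    (∀ i, IsKnotoid (O i).close → (family (O i) (w i) (u i) s).up = (O i).up →
      ∀ q : Fin k → ℤ, IsKnotoid (family (O i) (w i) (u i) (s + (P : ℤ) • q)).close) ∧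
    ((∀ q : Fin k → ℤ,
        ∑ i, c i * (family (O i) (w i) (u i) (s + (P : ℤ) • q)).close.fPoly = g) ∨
      ∀ A : Fin k → Finset ℤ, {q : Fin k → ℤ | (∀ j, q j ∈ A j) ∧
          ∑ i, c i * (family (O i) (w i) (u i) (s + (P : ℤ) • q)).close.fPoly = g}.ncard ≤
        (∑ i, (m i).choose (m i / 2)) * ∑ j, ∏ l ∈ univ.erase j, #(A l)) := by
  classical
  refine ⟨fun i hO hup q => ?_, ?_⟩
  · obtain ⟨x, hx⟩ := family_word (m i) k (w i) (u i) (s + (P : ℤ) • q)
    have h1 := family_up k (w i) (u i) P (fun j => hP i j) s q (O i) (O i) rfl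
    rw [hx] at h1 ⊢
    exact Pool.Agent.Y463.KN.knotoid_draw (O i) hO x (h1.trans hup)
  · by_cases hall : ∀ q : Fin k → ℤ,
        ∑ i, c i * (family (O i) (w i) (u i) (s + (P : ℤ) • q)).close.fPoly = g
    · exact Or.inl hall
    right
    intro A
    have hf : {q : Fin k → ℤ | (∀ j, q j ∈ A j) ∧
        ∑ i, c i * (family (O i) (w i) (u i) (s + (P : ℤ) • q)).close.fPoly = g}.Finite := by
      apply (Fintype.piFinset A).finite_toSet.subset
      intro n hn
      rw [Finset.mem_coe, Fintype.mem_piFinset]
      exact hn.1
    rw [Set.ncard_eq_toFinset_card _ hf, ← faces_eq]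
    have h := box_count 1 one_pos (∑ i, (m i).choose (m i / 2)) k
      (fun q => ∑ i, c i * (family (O i) (w i) (u i) (s + (P : ℤ) • q)).close.fPoly = g)
      ?_ A hf.toFinset ?_
    · rwa [mul_one] at h
    · intro q j s0 Z hZ hc z
      have hupd : ∀ y : ℤ, s + (P : ℤ) • Function.update q j (s0 + ((1 : ℕ) : ℤ) * y) =
          Function.update (s + (P : ℤ) • q) j ((s j + P * s0) + P * y) := by
        intro y
        funext l
        by_cases hl : l = j
        · subst hl
          rw [Pi.add_apply, Pi.smul_apply, Function.update_self, Function.update_self, smul_eq_mul,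
            Nat.cast_one]
          ring
        · rw [Pi.add_apply, Pi.smul_apply, Function.update_of_ne hl, Function.update_of_ne hl,
            Pi.add_apply, Pi.smul_apply]
      have h1 := line hm O w u c g P (s + (P : ℤ) • q) j (fun i => hP i j) (s j + P * s0) Z
        (fun y hy => by
          rw [← hupd]
          exact hZ y hy) hc z
      rw [← hupd] at h1
      exact h1
    · intro q hq
      rw [Set.Finite.mem_toFinset] at hq
      push Not at hall
      obtain ⟨q0, hq0⟩ := hall
      refine ⟨hq.1, hq.2, q0 - q, ?_⟩
      have h3 : q + ((1 : ℕ) : ℤ) • (q0 - q) = q0 := by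
        rw [Nat.cast_one, one_smul]; abel
      rw [h3]
      exact hq0

end Pool.Agent.Results.MP_79b4ff_gt.BraidPowerRelations
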