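import Pool.Agent.Q99.ET.Knotoid

/-!
# The normalised bracket of highly twisted knotoids

Diagrams: `Pool.Agent.H891R2.Jones.Diagram` (`Crossing`, `Diagram`: oriented diagrams with marked points;
`Diagram.bracket`, `Diagram.fPoly`: the state sum and the normalised bracket; the number `Diagram.loops`
of components of a state counts circles and intervals) and `Pool.Agent.H891R2.MT.Defs` (`UDiagram`,
`Orients D U`: `D` is the unoriented diagram `U` with directions).

`O : Sites k` is a diagram (planar or not) with `k` open boxes and any crossings outside them; `O.fill n`
is the diagram in which the box `e` is filled with a row of `|n e|` crossings of the kind given by the sign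
of `n e` (two vertical strands twisted around each other); `O.cut`: all boxes are cut (a cap and a cup
without crossings). `pcs O R` is the number of connected pieces of the diagram in which exactly the boxes
of `R` are cut, and `cutRank O R = |R| + 1 - pcs O R`.

`IsInterval D tail head`: the oriented diagram `D` is made of one interval which runs from `tail` to `head`
and (possibly) of closed curves: a diagram of a knotoid (multi-knotoid).
`vclose O tail head` is `O` with an arc from `head` to `tail` (the virtual closure: the arc may run through
anything).

`Good O J`: the diagram is connected and closed, the connected pieces of `O.cut` have nonzero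
determinants (the bracket of `O.cut` is not divisible by `(-A^2-A^{-2})^q` for the number `q` of its
pieces), the diagram remains connected when any two boxes of `J` are cut, and the boxes outside `J` join
the pieces of `O.cut` without cycles (no condition for `J = univ`). `SPred r J`: `J` can be reduced to the
empty set by deleting coloops, deleting one of two parallel elements and contracting one of two elements
in series (`r` is the rank function), that is, the matroid is series-parallel.

`SpanAtMost s D`: the exponents of `A` in `f_D` lie in an interval of length `4 s`.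

Proof: the two ends of the interval are joined in every state (parity), so the normalised bracket of the
knotoid is the one of its virtual closure, a closed (non-planar) diagram; for these see
MP_42db45_gt.SeriesParallelTwists, OddTwistNumbers and, for (3), the limit theorem for pairs.
-/

set_option autoImplicit false

namespace Pool.Agent.Results.MP_79b4ff_gt.HighlyTwistedKnotoids

open Finset LaurentPolynomial Pool.Agent.H891R2.Jones Pool.Agent.H891R2.MT Pool.Agent.H891R2.SI
open Pool.Agent.Q99.ET

theorem result {k : ℕ} (O : Sites k) (tail head : O.P) (J : Finset (Fin k)) 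
    (hO : Good (vclose O tail head) J) (n : Fin k → ℤ)
    (D : Diagram (O.P ⊕ Ribbon.Pt n)) (hD : Orients D (O.fill n)) 
    (hK : IsInterval D (.inl tail) (.inl head)) :
    -- (1) series-parallel, many crossings of any sign in the boxes of `J`, at most `B0` in the others
    (∀ s B0 : ℕ, SPred (cutRank (vclose O tail head)) J → 
      (∀ e ∈ J, (2 * (2 * k + 1) ^ (k - 1) * (2 * O.crossings.length + 3 * k + s + B0) : ℤ) ≤ |n e|) → 
      (∀ e ∉ J, |n e| ≤ B0) → 
      ¬ SpanAtMost s D ∧ D.fPoly ≠ 1) ∧
    -- (2) all matroids: twist numbers near multiples of one large number, odd multiples exactly on `J`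
    (∀ (s m B0 : ℕ) (j : Fin k → ℤ), B0 * k + (2 * O.crossings.length + 3 * k + s) < m → 
      (∀ e, |n e - m * j e| ≤ B0) → (∀ e, Odd (j e) ↔ e ∈ J) → 
      ¬ SpanAtMost s D ∧ D.fPoly ≠ 1) ∧
    -- (3) series-parallel: the normalised bracket is not the one of any diagram `D'` (of a link or of a
    -- knotoid) of a family of smaller rank: any numbers of crossings in the boxes of `J'`, at most `B0`
    -- in the others, rank of `J'` less than the rank of `J`
    (∀ (k' : ℕ) (_ : 0 < k') (O' : Sites k') (_ : O'.Connected) (J' : Finset (Fin k')) (B0 : ℕ), 
      SPred (cutRank (vclose O tail head)) J → cutRank O' J' < cutRank (vclose O tail head) J →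
      (∀ e ∈ J, (2 * (2 * (k + k' + 1) + 1) ^ (k + k') * 
        (2 * (O.crossings.length + O'.crossings.length) + 2 * (k + k') + 1 + B0) : ℤ) ≤ |n e|) → 
      (∀ e ∉ J, |n e| ≤ B0) → 
      ∀ (n' : Fin k' → ℤ), (∀ e ∉ J', |n' e| ≤ B0) → 
        ∀ D' : Diagram (O'.P ⊕ Ribbon.Pt n'), Orients D' (O'.fill n') → D.fPoly ≠ D'.fPoly) := by
  have hone : ∀ s, ¬ SpanAtMost s D → ¬ SpanAtMost s D ∧ D.fPoly ≠ 1 := by
    intro s h
    refine ⟨h, fun h1 => h ⟨0, fun j hj => ?_⟩⟩
    rw [h1] at hj
    have h2 := T4b.SIn.one j hj
    constructor
    · linarith [h2.1]
    · have h3 : (0 : ℤ) ≤ s := by positivity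
      linarith [h2.2]
  refine ⟨fun s B0 hsp hn hB => hone s (knotoid_sp O tail head J hO hsp s B0 n hn hB D hD hK), 
    fun s m B0 j hm hn hj => hone s (knotoid_odd O tail head J hO s B0 m j n hm hn hj D hD hK), 
    fun k' hk' O' hO' J' B0 hsp hr hn hB n' hB' D' hD' => ?_⟩
  rw [← fPoly_addArc D _ _ hK]
  exact hO.pair_sp hsp O' hk' hO' J' hr B0 n n' hn hB hB' (addArc D (.inl head) (.inl tail)) 
    (orients_vclose O tail head n D hD) D' hD'

end Pool.Agent.Results.MP_79b4ff_gt.HighlyTwistedKnotoids
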