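import Pool.Agent.Q99.SML10.Main

/-!
# Knotoids: powers of braids with exponents on an arbitrary line

Diagrams (starting library `Pool.Agent.H891R2.Jones.Diagram`): `Diagram P` (oriented diagrams with marked
points `P`, planar or not; `Diagram.loops`, the number of components of a state, counts circles and
intervals), `Diagram.fPoly` (the normalised bracket `(-A^{-3})^{w(D)} ⟨D⟩`), `Outer m` (the part of an
oriented diagram outside a box through which `m` strands run, with arbitrary directions), `Outer.close`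
(fills the rest of the box with vertical strands).  `IsKnotoid D` (starting library
`Pool.Agent.H832R3.TW.E`): the pieces of `D` form one oriented interval, running from a marked point `tail`
to a different marked point `head`, and (possibly) oriented closed curves.

`Pool.Agent.Q99.SML.Defs`: `Word` (words in the letters `σ_j^{±1}`), `wperm m w` (the permutation of `w`;
`w` is pure if it is `1`), `family O w u n` (the product
`w_0^{n_0} u_0 w_1^{n_1} u_1 ⋯ w_{k-1}^{n_{k-1}} u_{k-1}` is drawn in the box of `O`).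
-/

set_option autoImplicit false

namespace Pool.Agent.Results.MP_79b4ff_gt.LinesOfExponents

open Finset LaurentPolynomial Pool.Agent.H891R2.Jones Pool.Agent.H832R3.TW Q99.SML Q99.SML2

/-- Let `O_i`, `i < r`, be outsides of boxes with `m_i` strands, let `w_{i,j}`, `u_{i,j}`, `j < k`, be
braid words, let `P` be such that all `w_{i,j}^P` are pure, let `b_i, v_i ∈ ℤ^k` be arbitrary, and for
`t ∈ ℤ` let `K_i(t)` be the diagram obtained by drawing the product
`w_{i,0}^{n_0} u_{i,0} ⋯ w_{i,k-1}^{n_{k-1}} u_{i,k-1}`, `n = b_i + t P v_i`, in the box of `O_i`. So `t` may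
occur in all exponents, for instance in words like `w^t u w^{-t}`. Let `c_i` and `g` be Laurent
polynomials, let `v_i` have at most `κ_i` nonzero entries, and let `D = ∑ C(m_i, ⌊m_i / 2⌋)^{κ_i}`.

* If `O_i` is the outside of a knotoid diagram and the product of the words for `t = 0` preserves the
  directions of the strands, then all `K_i(t)` are diagrams of knotoids.
* Either `∑ c_i f(K_i(t)) = g` for all `t ∈ ℤ`, or for at most `D` integers `t`.
* Let `N` be a power of a prime number `p`. Either `∑ c_i f(K_i(t)) ≡ g` modulo `N` for all `t ∈ ℤ`, or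
  only for `t` in at most `D` residue classes modulo `p`. -/
theorem result {r k : ℕ} {m : Fin r → ℕ} (hm : ∀ i, 0 < m i) (O : ∀ i, Outer (m i))
    (w u : Fin r → Fin k → Word) (P : ℕ) (hP : ∀ i j, wperm (m i) (w i j) ^ P = 1)
    (b v : Fin r → Fin k → ℤ) (κ : Fin r → ℕ) (hv : ∀ i, #{j | v i j ≠ 0} ≤ κ i)
    (c : Fin r → ℤ[T;T⁻¹]) (g : ℤ[T;T⁻¹]) :
    (∀ i, IsKnotoid (O i).close → (family (O i) (w i) (u i) (b i)).up = (O i).up →
      ∀ t : ℤ, IsKnotoid (family (O i) (w i) (u i) (b i + ((P : ℤ) * t) • v i)).close) ∧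
    ((∀ t : ℤ,
        ∑ i, c i * (family (O i) (w i) (u i) (b i + ((P : ℤ) * t) • v i)).close.fPoly = g) ∨
      {t : ℤ | ∑ i, c i *
          (family (O i) (w i) (u i) (b i + ((P : ℤ) * t) • v i)).close.fPoly = g}.Finite ∧
        {t : ℤ | ∑ i, c i *
          (family (O i) (w i) (u i) (b i + ((P : ℤ) * t) • v i)).close.fPoly = g}.ncard ≤
        ∑ i, (m i).choose (m i / 2) ^ κ i) ∧
    ∀ p e : ℕ, p.Prime →
      (∀ t : ℤ, ((p ^ e : ℕ) : ℤ[T;T⁻¹]) ∣
        ∑ i, c i * (family (O i) (w i) (u i) (b i + ((P : ℤ) * t) • v i)).close.fPoly - g) ∨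
      ∃ R : Finset ℤ, #R ≤ ∑ i, (m i).choose (m i / 2) ^ κ i ∧ ∀ t : ℤ,
        ((p ^ e : ℕ) : ℤ[T;T⁻¹]) ∣
          ∑ i, c i * (family (O i) (w i) (u i) (b i + ((P : ℤ) * t) • v i)).close.fPoly - g →
        ∃ a ∈ R, (p : ℤ) ∣ t - a := by
  classical
  set F : ℤ → ℤ[T;T⁻¹] := fun t =>
    ∑ i, c i * (family (O i) (w i) (u i) (b i + ((P : ℤ) * t) • v i)).close.fPoly with hF
  obtain ⟨R, hR1, hR2, hR3⟩ := Q99.SML10.comb_line hm O w u P hP κ b v hv c g
  refine ⟨fun i hO hup t => ?_, ?_, fun p e hp => ?_⟩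
  · have e1 : b i + ((P : ℤ) * t) • v i = b i + (P : ℤ) • (t • v i) := by rw [smul_smul]
    rw [e1]
    obtain ⟨x, hx⟩ := family_word (m i) k (w i) (u i) (b i + (P : ℤ) • (t • v i))
    have h1 := family_up k (w i) (u i) P (fun j => hP i j) (b i) (t • v i) (O i) (O i) rfl
    rw [hx] at h1 ⊢
    exact Pool.Agent.Y463.KN.knotoid_draw (O i) hO x (h1.trans hup)
  · by_cases hall : ∀ t, F t = g
    · exact Or.inl hall
    right
    have key : ∀ Z : Finset ℤ, (∀ z ∈ Z, F z = g) → #Z ≤ ∑ i, (m i).choose (m i / 2) ^ κ i := by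
      intro Z hZ
      by_contra hcon
      push Not at hcon
      apply hall
      intro t
      have h1 := hR3.mem hR1 0 Q99.SML8.prime_zero.1 Q99.SML8.prime_zero.2 ⊥ Q99.SML8.reg_bot Z
        (fun z _ z' _ hd => by
          rw [zero_dvd_iff, sub_eq_zero] at hd
          exact hd) (fun z hz => by
          rw [Ideal.mem_bot, sub_eq_zero]
          exact hZ z hz) (hR2.trans hcon) t
      rw [Ideal.mem_bot, sub_eq_zero] at h1
      exact h1
    have hfin : {t : ℤ | F t = g}.Finite := by
      by_contra hinf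
      obtain ⟨B, hB1, hB2⟩ := Set.Infinite.exists_subset_card_eq (s := {t : ℤ | F t = g}) hinf
        (∑ i, (m i).choose (m i / 2) ^ κ i + 1)
      have := key B (fun q hq => hB1 hq)
      omega
    refine ⟨hfin, ?_⟩
    rw [Set.ncard_eq_toFinset_card _ hfin]
    exact key _ (fun q hq => by rwa [Set.Finite.mem_toFinset] at hq)
  · have : Fact p.Prime := ⟨hp⟩
    by_cases hall : ∀ t, ((p ^ e : ℕ) : ℤ[T;T⁻¹]) ∣ F t - g
    · exact Or.inl hall
    right
    refine Q99.SML8.classes (Q := fun t => ((p ^ e : ℕ) : ℤ[T;T⁻¹]) ∣ F t - g) p hp.pos _ ?_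
    intro A hA
    have hf : {z : ℤ | z ∈ A ∧ ((p ^ e : ℕ) : ℤ[T;T⁻¹]) ∣ F z - g}.Finite :=
      A.finite_toSet.subset fun z hz => hz.1
    rw [Set.ncard_eq_toFinset_card _ hf]
    by_contra hcon
    push Not at hcon
    apply hall
    intro t
    have h1 := hR3.mem hR1 (p : ℤ) (Q99.SML8.prime_p p hp).1 (Q99.SML8.prime_p p hp).2
      (Ideal.span {((p ^ e : ℕ) : ℤ[T;T⁻¹])}) (Q99.SML8.reg_ppow p e) hf.toFinset
      (fun z hz z' hz' hd => by
        rw [Set.Finite.mem_toFinset] at hz hz'
        exact hA z hz.1 z' hz'.1 hd) (fun z hz => by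
        rw [Set.Finite.mem_toFinset] at hz
        rw [Ideal.mem_span_singleton]
        exact hz.2) (hR2.trans hcon) t
    rw [Ideal.mem_span_singleton] at h1
    exact h1

end Pool.Agent.Results.MP_79b4ff_gt.LinesOfExponents
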