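import Pool.Agent.Q99.SML7.Main
import Pool.Agent.Q99.SML2.Knotoid

/-!
# The number of coefficients of the normalised brackets in families of knotoid diagrams

Diagrams (starting library `Pool.Agent.H891R2.Jones.Diagram`): `Diagram P` (oriented diagrams with marked
points `P`, planar or not; `Diagram.loops`, the number of components of a state, counts circles and
intervals), `Diagram.fPoly` (the normalised bracket `(-A^{-3})^{w(D)} ⟨D⟩`), `Outer m` (the part of an
oriented diagram outside a box through which `m` strands run, with arbitrary directions), `Outer.close`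
(fills the rest of the box with vertical strands).  `IsKnotoid D` (starting library
`Pool.Agent.H832R3.TW.E`): the pieces of `D` form one oriented interval, running from a marked point `tail`
to a different marked point `head`, and (possibly) oriented closed curves.

`Pool.Agent.Q99.SML.Defs`: `Word` (words in the letters `σ_j^{±1}`), `wperm m w` (the permutation of `w`;
`w` is pure if it is `1`), `family O w u n` (the product
`w_0^{n_0} u_0 w_1^{n_1} u_1 ⋯ w_{k-1}^{n_{k-1}} u_{k-1}` is drawn in the box of `O`).

`#F.coeff.support` is the number of the nonzero coefficients of the Laurent polynomial `F`.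
-/

set_option autoImplicit false

namespace Pool.Agent.Results.MP_79b4ff_gt.NumberOfCoefficients

open Finset LaurentPolynomial Pool.Agent.H891R2.Jones Pool.Agent.H832R3.TW Q99.SML Q99.SML2

/-- Let `O_i`, `i < r`, be outsides of boxes with `m_i` strands, let `w_{i,j}`, `u_{i,j}`, `j < k`, be
braid words, let `P ≥ 1` be such that all `w_{i,j}^P` are pure (`P = 1` if the `w_{i,j}` are pure), let
`s ∈ ℤ^k`, and for `q ∈ ℤ^k` let `K_i(q)` be the diagram obtained by drawing the product
`w_{i,0}^{n_0} u_{i,0} ⋯ w_{i,k-1}^{n_{k-1}} u_{i,k-1}`, `n = s + P q`, in the box of `O_i`.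

* If `O_i` is the outside of a knotoid diagram and the product of the words for `q = 0` preserves the
  directions of the strands, then all `K_i(q)` are diagrams of knotoids.
* Let `c_i` be Laurent polynomials, `F(q) = ∑ c_i f(K_i(q))` (for instance `F(q) = f(K(q))`), and
  `C = ∑ C(m_i, ⌊m_i / 2⌋)`.  For every `t`, either `F(q)` has at most `t` nonzero coefficients for all
  `q ∈ ℤ^k`, or for all finite sets `A_0, …, A_{k-1}` of integers this holds for at most
  `((t + 1)! C^(t+1) - 1) ∑_j ∏_{l ≠ j} |A_l|` of the `q ∈ ∏ A_j`.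
* For `k = 1`: either the number of the nonzero coefficients of `F(q)` is bounded, `q ∈ ℤ`, or it tends
  to infinity as `|q| → ∞`. -/
theorem result {r k : ℕ} {m : Fin r → ℕ} (hm : ∀ i, 0 < m i) (O : ∀ i, Outer (m i))
    (w u : Fin r → Fin k → Word) (P : ℕ) (hP : ∀ i j, wperm (m i) (w i j) ^ P = 1)
    (s : Fin k → ℤ) (c : Fin r → ℤ[T;T⁻¹]) (F : (Fin k → ℤ) → ℤ[T;T⁻¹])
    (hF : ∀ q, F q = ∑ i, c i * (family (O i) (w i) (u i) (s + (P : ℤ) • q)).close.fPoly) :
    (∀ i, IsKnotoid (O i).close → (family (O i) (w i) (u i) s).up = (O i).up →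
      ∀ q : Fin k → ℤ, IsKnotoid (family (O i) (w i) (u i) (s + (P : ℤ) • q)).close) ∧
    (∀ t : ℕ, (∀ q, #(F q).coeff.support ≤ t) ∨
      ∀ A : Fin k → Finset ℤ,
        {q : Fin k → ℤ | (∀ j, q j ∈ A j) ∧ #(F q).coeff.support ≤ t}.ncard ≤
          ((t + 1).factorial * (∑ i, (m i).choose (m i / 2)) ^ (t + 1) - 1) *
            ∑ j, ∏ l ∈ univ.erase j, #(A l)) ∧
    (k = 1 → (∃ t : ℕ, ∀ q, #(F q).coeff.support ≤ t) ∨
      Filter.Tendsto (fun q => #(F q).coeff.support) Filter.cofinite Filter.atTop) := by
  classical
  have hmain : ∀ t : ℕ, (∀ q, #(F q).coeff.support ≤ t) ∨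
      ∀ A : Fin k → Finset ℤ,
        {q : Fin k → ℤ | (∀ j, q j ∈ A j) ∧ #(F q).coeff.support ≤ t}.ncard ≤
          ((t + 1).factorial * (∑ i, (m i).choose (m i / 2)) ^ (t + 1) - 1) *
            ∑ j, ∏ l ∈ univ.erase j, #(A l) := by
    intro t
    have h := Q99.SML7.count_supp hm O w (fun i j => (u i j).map Sum.inl) P hP s c (t + 1) F
      (fun q => by
        rw [hF]
        refine Finset.sum_congr rfl fun i _ => ?_
        rw [Q99.SML7.family_eq])
    simpa only [Nat.lt_succ_iff] using h
  refine ⟨fun i hO hup q => ?_, hmain, fun hk => ?_⟩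
  · obtain ⟨x, hx⟩ := family_word (m i) k (w i) (u i) (s + (P : ℤ) • q)
    have h1 := family_up k (w i) (u i) P (fun j => hP i j) s q (O i) (O i) rfl
    rw [hx] at h1 ⊢
    exact Pool.Agent.Y463.KN.knotoid_draw (O i) hO x (h1.trans hup)
  · subst hk
    by_cases hb : ∃ t : ℕ, ∀ q, #(F q).coeff.support ≤ t
    · exact Or.inl hb
    right
    rw [Filter.tendsto_atTop]
    intro t
    rw [Filter.eventually_cofinite]
    have h1 := hmain t
    rcases h1 with h1 | h1
    · exact absurd ⟨t, h1⟩ hb
    · by_contra hinf
      have hinf' : {q : Fin 1 → ℤ | ¬ t ≤ #(F q).coeff.support}.Infinite := hinf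
      obtain ⟨S, hS, hcard⟩ := hinf'.exists_subset_card_eq
        ((t + 1).factorial * (∑ i, (m i).choose (m i / 2)) ^ (t + 1))
      rcases Nat.eq_zero_or_pos ((t + 1).factorial * (∑ i, (m i).choose (m i / 2)) ^ (t + 1))
        with h0 | h0
      · -- no family: `F = 0`
        have hC : ∑ i, (m i).choose (m i / 2) = 0 := by
          rcases Nat.mul_eq_zero.1 h0 with h2 | h2
          · exact absurd h2 (Nat.factorial_ne_zero _)
          · exact pow_eq_zero_iff (Nat.succ_ne_zero t) |>.1 h2
        have hr : IsEmpty (Fin r) := by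
          refine ⟨fun i => ?_⟩
          have h3 := (Finset.sum_eq_zero_iff.1 hC) i (Finset.mem_univ i)
          exact absurd h3 (Nat.choose_pos (Nat.div_le_self _ _)).ne'
        apply hb
        refine ⟨0, fun q => ?_⟩
        rw [hF, Finset.univ_eq_empty, Finset.sum_empty]
        simp
      · have h2 := h1 (fun _ => S.image (fun q => q 0))
        have h3 : (∑ j : Fin 1, ∏ l ∈ univ.erase j, #((fun _ : Fin 1 =>
            S.image (fun q : Fin 1 → ℤ => q 0)) l)) = 1 := by
          rw [Finset.univ_unique, Finset.sum_singleton]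
          simp
        rw [h3, mul_one] at h2
        have h4 : (S : Set (Fin 1 → ℤ)) ⊆ {q : Fin 1 → ℤ |
            (∀ j, q j ∈ (fun _ : Fin 1 => S.image (fun q : Fin 1 → ℤ => q 0)) j) ∧
            #(F q).coeff.support ≤ t} := by
          intro q hq
          refine ⟨fun j => ?_, ?_⟩
          · rw [Subsingleton.elim j 0]
            exact Finset.mem_image_of_mem _ hq
          · have := hS hq
            have h5 : ¬ t ≤ #(F q).coeff.support := this
            omega
        have hfin : {q : Fin 1 → ℤ |
            (∀ j, q j ∈ (fun _ : Fin 1 => S.image (fun q : Fin 1 → ℤ => q 0)) j) ∧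
            #(F q).coeff.support ≤ t}.Finite := by
          apply (Fintype.piFinset (fun _ : Fin 1 => S.image
            (fun q : Fin 1 → ℤ => q 0))).finite_toSet.subset
          intro n hn
          rw [Finset.mem_coe, Fintype.mem_piFinset]
          exact hn.1
        have h6 := Set.ncard_le_ncard h4 hfin
        rw [Set.ncard_coe_finset, hcard] at h6
        have h7 := h6.trans h2
        omega

end Pool.Agent.Results.MP_79b4ff_gt.NumberOfCoefficients
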